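import Pool.Agent.Lib.MP_c48ca6_an.Defs

/-!
# Sharp convex sets: general facts and the finite-dimensional case
-/

namespace Pool.Agent.Lib.MP_c48ca6_an

variable {H : Type} [NormedAddCommGroup H] [InnerProductSpace ℝ H] {A : Set H}

theorem mem_normalCone {x v : H} : v ∈ normalCone A x ↔ ∀ a ∈ A, inner ℝ (a - x) v ≤ 0 := Iff.rfl

theorem zero_mem_normalCone (x : H) : (0 : H) ∈ normalCone A x := fun a _ => by simp

theorem smul_mem_normalCone {x v : H} (hv : v ∈ normalCone A x) {c : ℝ} (hc : 0 ≤ c) :
    c • v ∈ normalCone A x := fun a ha => by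
  rw [inner_smul_right]
  exact mul_nonpos_of_nonneg_of_nonpos hc (hv a ha)

theorem isClosed_normalCone (x : H) : IsClosed (normalCone A x) := by
  have : normalCone A x = ⋂ a ∈ A, {v | inner ℝ (a - x) v ≤ 0} := by
    ext v; simp [mem_normalCone]
  rw [this]
  exact isClosed_biInter fun a _ => isClosed_le (by fun_prop) continuous_const

/-- Existence of a nearest point with its normal vector. -/
theorem exists_proj [CompleteSpace H] (hne : A.Nonempty) (hcl : IsClosed A) (hcv : Convex ℝ A)
    {y : H} (hy : y ∉ A) : ∃ x ∈ A, x ≠ y ∧ y - x ∈ normalCone A x := by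
  obtain ⟨x, hx, hmin⟩ := exists_norm_eq_iInf_of_complete_convex hne hcl.isComplete hcv y
  refine ⟨x, hx, fun h => hy (h ▸ hx), fun a ha => ?_⟩
  have := (norm_eq_iInf_iff_real_inner_le_zero hcv hx).mp hmin a ha
  rw [real_inner_comm]
  exact this

/-- The unit normal vector at the nearest point. -/
theorem exists_unit_normal [CompleteSpace H] (hne : A.Nonempty) (hcl : IsClosed A)
    (hcv : Convex ℝ A) {y : H} (hy : y ∉ A) :
    ∃ x ∈ A, ∃ v : H, ‖v‖ = 1 ∧ v ∈ normalCone A x ∧ ∃ t : ℝ, 0 < t ∧ y - x = t • v := by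
  obtain ⟨x, hx, hxy, hn⟩ := exists_proj hne hcl hcv hy
  have hpos : 0 < ‖y - x‖ := norm_pos_iff.mpr (sub_ne_zero.mpr (Ne.symm hxy))
  refine ⟨x, hx, ‖y - x‖⁻¹ • (y - x), ?_, smul_mem_normalCone hn (by positivity),
    ‖y - x‖, hpos, ?_⟩
  · rw [norm_smul, norm_inv, norm_norm, inv_mul_cancel₀ hpos.ne']
  · rw [smul_smul, mul_inv_cancel₀ hpos.ne', one_smul]

/-- If `A` is sharp with constant `α` with respect to `u` and a vector of a normal cone is closer
than `α` to `u`, then `u` is in that normal cone. -/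
theorem IsSharpWith.mem {u v : H} {α : ℝ} (h : IsSharpWith A u α) {x : H} (hx : x ∈ A)
    (hv : v ∈ normalCone A x) (hd : dist u v < α) : u ∈ normalCone A x := by
  by_contra hu
  have h1 := h x hx hu
  have h2 := Metric.infDist_le_dist_of_mem (x := u) hv
  linarith

theorem isPolyhedral_of_finset (s : Finset H) (b : H → ℝ)
    (h : A = {x | ∀ a ∈ s, inner ℝ a x ≤ b a}) : IsPolyhedral A := by
  classical
  -- add the trivial constraint so that there is at least one
  refine ⟨s.card + 1, Fin.cons 0 (fun i => (s.equivFin.symm i : H)),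
    Fin.cons 0 (fun i => b (s.equivFin.symm i : H)), by omega, ?_⟩
  rw [h]
  ext x
  simp only [Set.mem_ofPred_eq]
  constructor
  · intro hx j
    refine Fin.cases ?_ (fun i => ?_) j
    · simp
    · simp only [Fin.cons_succ]
      exact hx _ (s.equivFin.symm i).2
  · intro hx a ha
    have := hx (Fin.succ (s.equivFin ⟨a, ha⟩))
    simpa using this

/-- In finite dimension a closed convex set that is sharp in every direction is polyhedral. -/
theorem isPolyhedral_of_sharp [FiniteDimensional ℝ H] (hne : A.Nonempty) (hcl : IsClosed A)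
    (hcv : Convex ℝ A) (hs : SharpInEveryDirection A) : IsPolyhedral A := by
  classical
  have hcomplete : CompleteSpace H := FiniteDimensional.complete ℝ H
  have hproper : ProperSpace H := FiniteDimensional.proper ℝ H
  choose! α hα0 hα using hs
  -- shrink the constants to be at most one
  set β : H → ℝ := fun u => min (α u) 1 with hβ
  have hβ0 : ∀ u : H, ‖u‖ = 1 → 0 < β u := fun u hu => lt_min (hα0 u hu) one_pos
  have hcomp : IsCompact (Metric.sphere (0 : H) 1) := isCompact_sphere _ _
  obtain ⟨t, ht, htc⟩ := hcomp.elim_nhds_subcover (fun u => Metric.ball u (β u))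
    (fun u hu => Metric.ball_mem_nhds u (hβ0 u (mem_sphere_zero_iff_norm.mp hu)))
  -- the directions in which a maximum is attained
  set s : Finset H := t.filter (fun u => ∃ x ∈ A, u ∈ normalCone A x) with hsdef
  have hmax : ∀ u ∈ s, ∃ x, x ∈ A ∧ u ∈ normalCone A x := fun u hu => by
    obtain ⟨x, hx, h⟩ := (Finset.mem_filter.mp hu).2
    exact ⟨x, hx, h⟩
  set b : H → ℝ := fun u => if h : ∃ x, x ∈ A ∧ u ∈ normalCone A x then
    inner ℝ u h.choose else 0 with hb
  have hbval : ∀ u x, x ∈ A → u ∈ normalCone A x → b u = inner ℝ u x := by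
    intro u x hx hux
    have h : ∃ x, x ∈ A ∧ u ∈ normalCone A x := ⟨x, hx, hux⟩
    have hc := h.choose_spec
    simp only [hb]
    rw [dif_pos h]
    have h1 := hux _ hc.1
    have h2 := hc.2 _ hx
    rw [inner_sub_left] at h1 h2
    rw [real_inner_comm, real_inner_comm x u]
    linarith
  refine isPolyhedral_of_finset s b ?_
  ext y
  simp only [Set.mem_ofPred_eq]
  constructor
  · intro hy u hu
    obtain ⟨x, hx, hux⟩ := hmax u hu
    rw [hbval u x hx hux]
    have := hux y hy
    rw [inner_sub_left] at this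
    rw [real_inner_comm, real_inner_comm x u]
    linarith
  · intro hy
    by_contra hyA
    obtain ⟨x, hx, v, hv1, hv, r, hr, hyx⟩ := exists_unit_normal hne hcl hcv hyA
    obtain ⟨u, hut, huv⟩ := Set.mem_iUnion₂.mp (htc (mem_sphere_zero_iff_norm.mpr hv1))
    have hu1 : ‖u‖ = 1 := mem_sphere_zero_iff_norm.mp (ht u hut)
    have hd : dist u v < β u := by rw [dist_comm]; exact huv
    have hd1 : dist u v < α u := lt_of_lt_of_le hd (min_le_left _ _)
    have hd2 : dist u v < 1 := lt_of_lt_of_le hd (min_le_right _ _)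
    have hu : u ∈ normalCone A x := (hα u hu1).mem hx hv hd1
    have hus : u ∈ s := Finset.mem_filter.mpr ⟨hut, x, hx, hu⟩
    have h1 := hy u hus
    rw [hbval u x hx hu] at h1
    -- `⟨u, v⟩ > 0`
    have h2 : 0 < inner ℝ u v := by
      have h3 : ‖u - v‖ ^ 2 = ‖u‖ ^ 2 - 2 * inner ℝ u v + ‖v‖ ^ 2 := norm_sub_sq_real u v
      rw [dist_eq_norm] at hd2
      have h4 : ‖u - v‖ ^ 2 < 1 := by
        have := norm_nonneg (u - v)
        nlinarith
      rw [hu1, hv1] at h3
      linarith
    have h3 : inner ℝ u y - inner ℝ u x = r * inner ℝ u v := by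
      rw [← inner_sub_right, hyx, inner_smul_right]
    have h4 : 0 < r * inner ℝ u v := mul_pos hr h2
    linarith

/-- A polyhedral set is sharp in every direction. -/
theorem sharp_of_isPolyhedral (hA : IsPolyhedral A) : SharpInEveryDirection A := by
  classical
  obtain ⟨m, a, b, -, rfl⟩ := hA
  intro u _
  set P : Set H := {x | ∀ j, inner ℝ (a j) x ≤ b j} with hP
  -- the normal cone depends only on the active set
  set act : H → Finset (Fin m) := fun x => Finset.univ.filter (fun j => inner ℝ (a j) x = b j)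
    with hact
  have hmono : ∀ x ∈ P, ∀ y ∈ P, act x ⊆ act y → normalCone P x ⊆ normalCone P y := by
    intro x hx y hy hxy v hv w hw
    -- move a little from x in the direction w - y
    have hsmall : ∃ t : ℝ, 0 < t ∧ x + t • (w - y) ∈ P := by
      have hj : ∀ j : Fin m, ∃ t : ℝ, 0 < t ∧ ∀ s : ℝ, 0 < s → s ≤ t →
          inner ℝ (a j) (x + s • (w - y)) ≤ b j := by
        intro j
        by_cases hjx : inner ℝ (a j) x = b j
        · have hjy : inner ℝ (a j) y = b j := by
            have : j ∈ act y := hxy (Finset.mem_filter.mpr ⟨Finset.mem_univ _, hjx⟩)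
            exact (Finset.mem_filter.mp this).2
          refine ⟨1, one_pos, fun s hs _ => ?_⟩
          rw [inner_add_right, inner_smul_right, inner_sub_right, hjx, hjy]
          have := hw j
          nlinarith
        · have hlt : inner ℝ (a j) x < b j := lt_of_le_of_ne (hx j) hjx
          set c : ℝ := |inner ℝ (a j) (w - y)| + 1 with hc
          have hc0 : 0 < c := by positivity
          refine ⟨(b j - inner ℝ (a j) x) / c, div_pos (by linarith) hc0, fun s hs hst => ?_⟩
          rw [inner_add_right, inner_smul_right]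
          rw [le_div_iff₀ hc0] at hst
          have h1 : s * inner ℝ (a j) (w - y) ≤ s * c := by
            refine mul_le_mul_of_nonneg_left ?_ hs.le
            rw [hc]
            linarith [le_abs_self (inner ℝ (a j) (w - y))]
          linarith
      choose t ht0 ht using hj
      rcases Nat.eq_zero_or_pos m with hm | hm
      · subst hm
        exact ⟨1, one_pos, fun j => j.elim0⟩
      · have hne : (Finset.univ : Finset (Fin m)).Nonempty := ⟨⟨0, hm⟩, Finset.mem_univ _⟩
        refine ⟨Finset.univ.inf' hne t, ?_, fun j => ?_⟩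
        · rw [Finset.lt_inf'_iff]
          exact fun j _ => ht0 j
        · refine ht j _ ?_ (Finset.inf'_le _ (Finset.mem_univ j))
          rw [Finset.lt_inf'_iff]
          exact fun j _ => ht0 j
    obtain ⟨t, ht, hmem⟩ := hsmall
    have := hv _ hmem
    rw [add_sub_cancel_left, inner_smul_left] at this
    simp only [conj_trivial] at this
    have h2 : 0 < t := ht
    by_contra hcon
    push Not at hcon
    have : 0 < t * inner ℝ (w - y) v := mul_pos h2 hcon
    linarith
  have hEq : ∀ x ∈ P, ∀ y ∈ P, act x = act y → normalCone P x = normalCone P y :=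
    fun x hx y hy h => Set.Subset.antisymm (hmono x hx y hy h.le) (hmono y hy x hx h.ge)
  -- for each active set that occurs, a positive constant
  have hF : ∀ F : Finset (Fin m), ∃ α : ℝ, 0 < α ∧ ∀ x ∈ P, act x = F →
      u ∉ normalCone P x → α ≤ Metric.infDist u (normalCone P x) := by
    intro F
    by_cases h : ∃ x ∈ P, act x = F ∧ u ∉ normalCone P x
    · obtain ⟨x, hx, hxF, hux⟩ := h
      refine ⟨Metric.infDist u (normalCone P x), ?_, fun y hy hyF _ => ?_⟩
      · exact ((isClosed_normalCone x).notMem_iff_infDist_pos ⟨0, zero_mem_normalCone x⟩).mp hux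
      · rw [hEq y hy x hx (hyF.trans hxF.symm)]
    · push Not at h
      exact ⟨1, one_pos, fun x hx hxF hux => absurd (h x hx hxF) hux⟩
  choose α hα0 hα using hF
  refine ⟨Finset.univ.inf' Finset.univ_nonempty α, ?_, fun x hx hux => ?_⟩
  · rw [Finset.lt_inf'_iff]
    exact fun F _ => hα0 F
  · exact (Finset.inf'_le _ (Finset.mem_univ (act x))).trans (hα (act x) x hx rfl hux)

/-- The whole space is polyhedral. -/
theorem isPolyhedral_univ : IsPolyhedral (Set.univ : Set H) :=
  isPolyhedral_of_finset ∅ (fun _ => 0) (by simp)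

/-- In infinite dimension there is a nonzero vector orthogonal to finitely many given ones. -/
theorem exists_orthogonal (hinf : ¬ FiniteDimensional ℝ H) {m : ℕ} (a : Fin m → H) :
    ∃ w : H, w ≠ 0 ∧ ∀ j, inner ℝ (a j) w = 0 := by
  by_contra hcon
  push Not at hcon
  apply hinf
  set L : H →ₗ[ℝ] (Fin m → ℝ) :=
    { toFun := fun w j => inner ℝ (a j) w
      map_add' := fun v w => by ext j; simp [inner_add_right]
      map_smul' := fun c w => by ext j; simp [inner_smul_right] } with hL
  have hinj : Function.Injective L := by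
    rw [← LinearMap.ker_eq_bot, LinearMap.ker_eq_bot']
    intro w hw
    by_contra hw0
    obtain ⟨j, hj⟩ := hcon w hw0
    exact hj (congrFun hw j)
  exact Module.Finite.of_injective L hinj

/-- In infinite dimension a nonempty polyhedral set is not bounded. -/
theorem not_isBounded_of_constraints (hinf : ¬ FiniteDimensional ℝ H) {m : ℕ} (a : Fin m → H)
    (b : Fin m → ℝ) (hne : {x : H | ∀ j, inner ℝ (a j) x ≤ b j}.Nonempty) :
    ¬ Bornology.IsBounded {x : H | ∀ j, inner ℝ (a j) x ≤ b j} := by
  obtain ⟨x, hx⟩ := hne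
  obtain ⟨w, hw0, hw⟩ := exists_orthogonal hinf a
  intro hb
  obtain ⟨C, hC⟩ := hb.exists_norm_le
  have hwn : 0 < ‖w‖ := norm_pos_iff.mpr hw0
  have hmem : ∀ t : ℝ, x + t • w ∈ {x : H | ∀ j, inner ℝ (a j) x ≤ b j} := by
    intro t j
    rw [inner_add_right, inner_smul_right, hw j, mul_zero, add_zero]
    exact hx j
  have h1 := hC _ (hmem ((C + ‖x‖ + 1) / ‖w‖))
  have h2 : ‖((C + ‖x‖ + 1) / ‖w‖) • w‖ ≤ ‖x + ((C + ‖x‖ + 1) / ‖w‖) • w‖ + ‖x‖ := by
    have := norm_sub_le (x + ((C + ‖x‖ + 1) / ‖w‖) • w) x
    rwa [add_sub_cancel_left] at this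
  have h3 : C + ‖x‖ + 1 ≤ ‖((C + ‖x‖ + 1) / ‖w‖) • w‖ := by
    rw [norm_smul, Real.norm_eq_abs, abs_div, abs_of_pos hwn, div_mul_cancel₀ _ hwn.ne']
    exact le_abs_self _
  linarith

end Pool.Agent.Lib.MP_c48ca6_an
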