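import Mathlib

/-!
# Definitions for MP_c48ca6_an: sharp closed convex sets
-/

namespace Pool.Agent.Lib.MP_c48ca6_an

/-- The normal cone of `A` at `x`. -/
def normalCone {H : Type} [NormedAddCommGroup H] [InnerProductSpace ℝ H] (A : Set H) (x : H) :
    Set H :=
  {v | ∀ a ∈ A, inner ℝ (a - x) v ≤ 0}

/-- `A` is `α`-sharp with respect to `u`: the distance from `u` to the normal cone of `A` at `x` is
at least `α` for every `x ∈ A` with `u` not in that normal cone. -/
def IsSharpWith {H : Type} [NormedAddCommGroup H] [InnerProductSpace ℝ H] (A : Set H) (u : H)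
    (α : ℝ) : Prop :=
  ∀ x ∈ A, u ∉ normalCone A x → α ≤ Metric.infDist u (normalCone A x)

/-- One and the same `α > 0` makes `A` `α`-sharp with respect to every unit vector. -/
def UniformlySharp {H : Type} [NormedAddCommGroup H] [InnerProductSpace ℝ H] (A : Set H) : Prop :=
  ∃ α : ℝ, 0 < α ∧ ∀ u : H, ‖u‖ = 1 → IsSharpWith A u α

/-- For every unit vector `u` there is `α > 0`, which may depend on `u`, such that `A` is
`α`-sharp with respect to `u`. -/
def SharpInEveryDirection {H : Type} [NormedAddCommGroup H] [InnerProductSpace ℝ H]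
    (A : Set H) : Prop :=
  ∀ u : H, ‖u‖ = 1 → ∃ α : ℝ, 0 < α ∧ IsSharpWith A u α

/-- `A` is polyhedral: a finite intersection of sets `{x | ⟨a j, x⟩ ≤ b j}`, with at least one
index. -/
def IsPolyhedral {H : Type} [NormedAddCommGroup H] [InnerProductSpace ℝ H] (A : Set H) : Prop :=
  ∃ (m : ℕ) (a : Fin m → H) (b : Fin m → ℝ), 1 ≤ m ∧ A = {x | ∀ j, inner ℝ (a j) x ≤ b j}

/-- `A` is polyhedral relative to a closed affine subspace: the intersection of a translate
`c + V` of a closed linear subspace `V` with finitely many sets `{x | ⟨a j, x⟩ ≤ b j}`. -/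
def IsRelativelyPolyhedral {H : Type} [NormedAddCommGroup H] [InnerProductSpace ℝ H]
    (A : Set H) : Prop :=
  ∃ (V : Submodule ℝ H) (c : H) (m : ℕ) (a : Fin m → H) (b : Fin m → ℝ),
    IsClosed (V : Set H) ∧ A = {x | x - c ∈ V ∧ ∀ j, inner ℝ (a j) x ≤ b j}

end Pool.Agent.Lib.MP_c48ca6_an
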