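import Pool.Agent.Lib.MP_c48ca6_an.Basic

/-!
# A bounded set with dense span that is sharp in every direction but not polyhedral
-/

open Filter Topology

namespace Pool.Agent.Lib.MP_c48ca6_an

/-- A nonnegative function tending to zero attains its maximum, with a gap to the other values. -/
theorem exists_max_gap {ι : Type*} (f : ι → ℝ) (hf0 : ∀ i, 0 ≤ f i)
    (hf : Tendsto f cofinite (𝓝 0)) {i₀ : ι} (hi₀ : 0 < f i₀) :
    ∃ M g : ℝ, 0 < g ∧ g < M ∧ (∃ i, f i = M) ∧ (∀ i, f i ≤ M) ∧ ∀ i, f i = M ∨ f i ≤ M - g := by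
  classical
  have hfin : {i | ¬ f i < f i₀ / 2}.Finite := by
    have h : ∀ᶠ i in cofinite, f i < f i₀ / 2 := hf.eventually (gt_mem_nhds (by positivity))
    exact h
  set F : Finset ι := hfin.toFinset with hF
  have hmemF : ∀ i, i ∈ F ↔ f i₀ / 2 ≤ f i := fun i => by
    rw [hF, Set.Finite.mem_toFinset]; exact not_lt
  have hi₀F : i₀ ∈ F := (hmemF i₀).mpr (by linarith)
  have hFne : F.Nonempty := ⟨i₀, hi₀F⟩
  obtain ⟨k, hkF, hk⟩ := F.exists_max_image f hFne
  have hM0 : f i₀ ≤ f k := hk i₀ hi₀F
  have hout : ∀ i, i ∉ F → f i < f k / 2 := by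
    intro i hi
    have : ¬ f i₀ / 2 ≤ f i := fun h => hi ((hmemF i).mpr h)
    push Not at this
    linarith
  have hle : ∀ i, f i ≤ f k := by
    intro i
    by_cases hi : i ∈ F
    · exact hk i hi
    · have := hout i hi
      have := hf0 k
      linarith
  set F' : Finset ι := F.filter (fun i => f i < f k) with hF'
  rcases F'.eq_empty_or_nonempty with hemp | hne
  · refine ⟨f k, f k / 2, by linarith, by linarith, ⟨k, rfl⟩, hle, fun i => ?_⟩
    by_cases hi : i ∈ F
    · left
      by_contra hne
      have : i ∈ F' := Finset.mem_filter.mpr ⟨hi, lt_of_le_of_ne (hle i) hne⟩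
      rw [hemp] at this
      exact Finset.notMem_empty i this
    · right
      have := hout i hi
      linarith
  · obtain ⟨l, hl, hlmax⟩ := F'.exists_max_image f hne
    have hlt : f l < f k := (Finset.mem_filter.mp hl).2
    refine ⟨f k, min (f k / 2) (f k - f l), lt_min (by linarith) (by linarith),
      lt_of_le_of_lt (min_le_left _ _) (by linarith), ⟨k, rfl⟩, hle, fun i => ?_⟩
    by_cases hi : i ∈ F
    · by_cases he : f i = f k
      · exact Or.inl he
      · right
        have : i ∈ F' := Finset.mem_filter.mpr ⟨hi, lt_of_le_of_ne (hle i) he⟩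
        have h1 := hlmax i this
        have h2 : min (f k / 2) (f k - f l) ≤ f k - f l := min_le_right _ _
        linarith
    · right
      have := hout i hi
      have h2 : min (f k / 2) (f k - f l) ≤ f k / 2 := min_le_left _ _
      linarith

variable {H : Type} [NormedAddCommGroup H] [InnerProductSpace ℝ H]
variable {ι : Type*} (b : HilbertBasis ι ℝ H)

/-- The unit ball of `ℓ¹` inside the Hilbert space. -/
def ballOne : Set H := {x | ∀ s : Finset ι, ∑ i ∈ s, |inner ℝ (b i) x| ≤ 1}

theorem zero_mem_ballOne : (0 : H) ∈ ballOne b := fun s => by simp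

theorem isClosed_ballOne : IsClosed (ballOne b) := by
  have : ballOne b = ⋂ s : Finset ι, {x | ∑ i ∈ s, |inner ℝ (b i) x| ≤ 1} := by
    ext x; simp [ballOne]
  rw [this]
  exact isClosed_iInter fun s => isClosed_le (by fun_prop) continuous_const

theorem convex_ballOne : Convex ℝ (ballOne b) := by
  intro x hx y hy p q hp hq hpq s
  calc ∑ i ∈ s, |inner ℝ (b i) (p • x + q • y)|
      ≤ ∑ i ∈ s, (p * |inner ℝ (b i) x| + q * |inner ℝ (b i) y|) := by
        refine Finset.sum_le_sum fun i _ => ?_
        rw [inner_add_right, inner_smul_right, inner_smul_right]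
        refine (abs_add_le _ _).trans (le_of_eq ?_)
        rw [abs_mul, abs_mul, abs_of_nonneg hp, abs_of_nonneg hq]
    _ = p * ∑ i ∈ s, |inner ℝ (b i) x| + q * ∑ i ∈ s, |inner ℝ (b i) y| := by
        rw [Finset.sum_add_distrib, Finset.mul_sum, Finset.mul_sum]
    _ ≤ p * 1 + q * 1 := by
        have h1 := hx s
        have h2 := hy s
        gcongr
    _ = 1 := by linarith

theorem basis_mem_ballOne (j : ι) : b j ∈ ballOne b := by
  classical
  intro s
  have h : ∀ i, |inner ℝ (b i) (b j)| = if i = j then 1 else 0 := by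
    intro i
    rw [orthonormal_iff_ite.mp b.orthonormal i j]
    split_ifs <;> simp
  simp only [h, Finset.sum_ite_eq']
  split_ifs <;> norm_num

theorem neg_mem_ballOne {x : H} (hx : x ∈ ballOne b) : -x ∈ ballOne b := by
  intro s
  have := hx s
  simpa [inner_neg_right, abs_neg] using this

theorem norm_le_one_of_mem_ballOne {x : H} (hx : x ∈ ballOne b) : ‖x‖ ≤ 1 := by
  have h := b.hasSum_repr x
  have hcl : IsClosed (Metric.closedBall (0 : H) 1) := Metric.isClosed_closedBall
  have hmem : x ∈ Metric.closedBall (0 : H) 1 := by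
    refine hcl.mem_of_tendsto h (Eventually.of_forall fun s => ?_)
    rw [mem_closedBall_zero_iff]
    refine (norm_sum_le _ _).trans ((Finset.sum_le_sum fun i _ => ?_).trans (hx s))
    rw [norm_smul, b.orthonormal.1 i, mul_one, b.repr_apply_apply, Real.norm_eq_abs]
  exact mem_closedBall_zero_iff.mp hmem

theorem isBounded_ballOne : Bornology.IsBounded (ballOne b) := by
  refine Metric.isBounded_closedBall.subset (t := Metric.closedBall (0 : H) 1) fun x hx => ?_
  rw [mem_closedBall_zero_iff]
  exact norm_le_one_of_mem_ballOne b hx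

theorem summable_abs {x : H} (hx : x ∈ ballOne b) : Summable fun i => |inner ℝ (b i) x| :=
  summable_of_sum_le (fun _ => abs_nonneg _) hx

theorem tsum_abs_le {x : H} (hx : x ∈ ballOne b) : ∑' i, |inner ℝ (b i) x| ≤ 1 :=
  (summable_abs b hx).tsum_le_of_sum_le hx

theorem hasSum_inner (x y : H) : HasSum (fun i => inner ℝ (b i) x * inner ℝ (b i) y)
    (inner ℝ x y) := by
  have h := b.hasSum_inner_mul_inner x y
  have e : (fun i => inner ℝ (b i) x * inner ℝ (b i) y) =
      fun i => inner ℝ x (b i) * inner ℝ (b i) y := by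
    funext i
    rw [real_inner_comm]
  rw [e]
  exact h

theorem abs_coord_le (j : ι) (x : H) : |inner ℝ (b j) x| ≤ ‖x‖ := by
  have := abs_real_inner_le_norm (b j) x
  rwa [b.orthonormal.1 j, one_mul] at this

/-- The value of a functional on the `ℓ¹` ball is at most the supremum of its coordinates. -/
theorem inner_le_of_mem {x u : H} {M : ℝ} (hx : x ∈ ballOne b)
    (hM : ∀ i, |inner ℝ (b i) u| ≤ M) (hM0 : 0 ≤ M) : inner ℝ x u ≤ M := by
  have h1 := hasSum_inner b x u
  have h2 : HasSum (fun i => M * |inner ℝ (b i) x|) (M * ∑' i, |inner ℝ (b i) x|) :=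
    (summable_abs b hx).hasSum.mul_left M
  have h3 : inner ℝ x u ≤ M * ∑' i, |inner ℝ (b i) x| := by
    refine hasSum_le (fun i => ?_) h1 h2
    calc inner ℝ (b i) x * inner ℝ (b i) u ≤ |inner ℝ (b i) x * inner ℝ (b i) u| := le_abs_self _
      _ = |inner ℝ (b i) x| * |inner ℝ (b i) u| := abs_mul _ _
      _ ≤ |inner ℝ (b i) x| * M := by gcongr; exact hM i
      _ = M * |inner ℝ (b i) x| := mul_comm _ _
  have h4 := tsum_abs_le b hx
  nlinarith

/-- The `ℓ¹` ball is sharp in every direction. -/
theorem sharp_ballOne : SharpInEveryDirection (ballOne b) := by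
  intro u hu
  -- the coordinates of `u`
  have hsum : Summable fun i => inner ℝ (b i) u * inner ℝ (b i) u := (hasSum_inner b u u).summable
  have htend0 : Tendsto (fun i => inner ℝ (b i) u * inner ℝ (b i) u) cofinite (𝓝 0) :=
    hsum.tendsto_cofinite_zero
  have htend : Tendsto (fun i => |inner ℝ (b i) u|) cofinite (𝓝 0) := by
    have h1 : Tendsto (fun i => Real.sqrt (inner ℝ (b i) u * inner ℝ (b i) u)) cofinite
        (𝓝 (Real.sqrt 0)) := (Real.continuous_sqrt.tendsto 0).comp htend0
    rw [Real.sqrt_zero] at h1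
    refine h1.congr fun i => ?_
    rw [Real.sqrt_mul_self_eq_abs]
  obtain ⟨i₀, hi₀⟩ : ∃ i, 0 < |inner ℝ (b i) u| := by
    by_contra hcon
    push Not at hcon
    have h0 : ∀ i, inner ℝ (b i) u = 0 := fun i => abs_nonpos_iff.mp (hcon i)
    have h1 := hasSum_inner b u u
    simp only [h0, mul_zero] at h1
    have h2 : inner ℝ u u = (0 : ℝ) := h1.unique hasSum_zero
    rw [real_inner_self_eq_norm_sq, hu] at h2
    norm_num at h2
  obtain ⟨M, g, hg, hgM, ⟨k, hk⟩, hMle, hgap⟩ :=
    exists_max_gap (fun i => |inner ℝ (b i) u|) (fun _ => abs_nonneg _) htend hi₀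
  have hM : 0 < M := hg.trans hgM
  refine ⟨g / 4, by positivity, fun x hx hux => ?_⟩
  refine (Metric.le_infDist ⟨0, zero_mem_normalCone x⟩).mpr fun v hv => ?_
  by_contra hd
  push Not at hd
  apply hux
  set δ : ℝ := dist u v with hδ
  have hδ0 : 0 ≤ δ := dist_nonneg
  have hcoord : ∀ i, |inner ℝ (b i) u - inner ℝ (b i) v| ≤ δ := by
    intro i
    rw [← inner_sub_right, hδ, dist_eq_norm]
    exact abs_coord_le b i _
  set m : ℝ := inner ℝ x v with hm
  have hmv : ∀ i, |inner ℝ (b i) v| ≤ m := by
    intro i
    have h1 := hv _ (basis_mem_ballOne b i)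
    have h2 := hv _ (neg_mem_ballOne b (basis_mem_ballOne b i))
    rw [inner_sub_left] at h1 h2
    rw [inner_neg_left] at h2
    rw [abs_le]
    constructor <;> linarith
  have hmM : M - δ ≤ m := by
    have h1 := hmv k
    have h2 := hcoord k
    have h3 : |inner ℝ (b k) u| ≤ |inner ℝ (b k) v| + |inner ℝ (b k) u - inner ℝ (b k) v| := by
      have := abs_add_le (inner ℝ (b k) v) (inner ℝ (b k) u - inner ℝ (b k) v)
      rwa [add_sub_cancel] at this
    rw [hk] at h3
    linarith
  have hm0 : 0 < m := by linarith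
  set S : ℝ := ∑' i, |inner ℝ (b i) x| with hS
  have hS1 : S ≤ 1 := tsum_abs_le b hx
  -- equality in the duality bound
  have hterms : HasSum (fun i => m * |inner ℝ (b i) x| - inner ℝ (b i) x * inner ℝ (b i) v)
      (m * S - m) := ((summable_abs b hx).hasSum.mul_left m).sub (hasSum_inner b x v)
  have hnn : ∀ i, 0 ≤ m * |inner ℝ (b i) x| - inner ℝ (b i) x * inner ℝ (b i) v := by
    intro i
    have h1 : inner ℝ (b i) x * inner ℝ (b i) v ≤ |inner ℝ (b i) x| * |inner ℝ (b i) v| := by
      rw [← abs_mul]; exact le_abs_self _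
    have h2 : |inner ℝ (b i) x| * |inner ℝ (b i) v| ≤ |inner ℝ (b i) x| * m := by
      gcongr; exact hmv i
    linarith
  have hge : 0 ≤ m * S - m := hterms.nonneg hnn
  have hle : m * S - m ≤ 0 := by nlinarith
  have hzero : m * S - m = 0 := le_antisymm hle hge
  have hS' : S = 1 := by
    have h1 : m * (S - 1) = 0 := by linarith
    rcases mul_eq_zero.mp h1 with h2 | h2
    · exact absurd h2 hm0.ne'
    · linarith
  rw [hzero] at hterms
  have hall : ∀ i, m * |inner ℝ (b i) x| - inner ℝ (b i) x * inner ℝ (b i) v = 0 := by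
    have := (hasSum_zero_iff_of_nonneg hnn).mp hterms
    exact fun i => congrFun this i
  -- the same for `u`
  have hux' : ∀ i, inner ℝ (b i) x * inner ℝ (b i) u = M * |inner ℝ (b i) x| := by
    intro i
    set xi : ℝ := inner ℝ (b i) x with hxi
    set ui : ℝ := inner ℝ (b i) u with hui
    set vi : ℝ := inner ℝ (b i) v with hvi
    have h1 : m * |xi| - xi * vi = 0 := hall i
    have h2 : |ui - vi| ≤ δ := hcoord i
    rcases eq_or_ne xi 0 with hx0 | hx0
    · rw [hx0]; simp
    · have hxa : 0 < |xi| := abs_pos.mpr hx0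
      have h3 := abs_le.mp h2
      have hgi : |ui| = M ∨ |ui| ≤ M - g := hgap i
      have hui_le : |ui| ≤ M := hMle i
      rcases lt_or_gt_of_ne hx0 with hneg | hpos
      · rw [abs_of_neg hneg] at h1 ⊢
        have h4 : xi * (m + vi) = 0 := by linarith
        have h5 : vi = -m := by
          rcases mul_eq_zero.mp h4 with h | h
          · exact absurd h hx0
          · linarith
        have h6 : ui ≤ -(M - 2 * δ) := by linarith
        have h7 : |ui| = M := by
          rcases hgi with h | h
          · exact h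
          · exfalso
            have := neg_abs_le ui
            linarith
        have h8 : ui < 0 := by linarith
        rw [abs_of_neg h8] at h7
        rw [show ui = -M by linarith]
        ring
      · rw [abs_of_pos hpos] at h1 ⊢
        have h4 : xi * (m - vi) = 0 := by linarith
        have h5 : vi = m := by
          rcases mul_eq_zero.mp h4 with h | h
          · exact absurd h hx0
          · linarith
        have h6 : M - 2 * δ ≤ ui := by linarith
        have h7 : |ui| = M := by
          rcases hgi with h | h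
          · exact h
          · exfalso
            have := le_abs_self ui
            linarith
        have h8 : 0 < ui := by linarith
        rw [abs_of_pos h8] at h7
        rw [h7]
        ring
  have hxu : inner ℝ x u = M := by
    have h1 := hasSum_inner b x u
    simp only [hux'] at h1
    have h2 : HasSum (fun i => M * |inner ℝ (b i) x|) (M * S) :=
      (summable_abs b hx).hasSum.mul_left M
    rw [h1.unique h2, hS', mul_one]
  intro a ha
  rw [inner_sub_left, hxu]
  have := inner_le_of_mem b ha hMle hM.le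
  linarith

/-- The `ℓ¹` ball is not relatively polyhedral in infinite dimension. -/
theorem not_isRelativelyPolyhedral_ballOne (hinf : ¬ FiniteDimensional ℝ H) :
    ¬ IsRelativelyPolyhedral (ballOne b) := by
  rintro ⟨V, c, m, a, β, hV, hEq⟩
  have h1 : ∀ i, b i - c ∈ V := fun i => by
    have := basis_mem_ballOne b i
    rw [hEq] at this
    exact this.1
  have h2 : ∀ i, -b i - c ∈ V := fun i => by
    have := neg_mem_ballOne b (basis_mem_ballOne b i)
    rw [hEq] at this
    exact this.1
  have h3 : ∀ i, b i ∈ V := fun i => by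
    have h := V.sub_mem (h1 i) (h2 i)
    have e : b i - c - (-b i - c) = (2 : ℝ) • b i := by
      rw [two_smul]; abel
    rw [e] at h
    have := V.smul_mem (2 : ℝ)⁻¹ h
    rwa [smul_smul, inv_mul_cancel₀ (two_ne_zero), one_smul] at this
  have hVtop : V = ⊤ := by
    have h4 : Submodule.span ℝ (Set.range b) ≤ V := by
      rw [Submodule.span_le]
      rintro _ ⟨i, rfl⟩
      exact h3 i
    have h5 : (Submodule.span ℝ (Set.range b)).topologicalClosure ≤ V :=
      Submodule.topologicalClosure_minimal _ h4 hV
    rw [b.dense_span] at h5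
    exact top_le_iff.mp h5
  have hEq' : ballOne b = {x | ∀ j, inner ℝ (a j) x ≤ β j} := by
    rw [hEq, hVtop]
    ext x
    simp
  have hb := isBounded_ballOne b
  rw [hEq'] at hb
  refine not_isBounded_of_constraints hinf a β ?_ hb
  rw [← hEq']
  exact ⟨0, zero_mem_ballOne b⟩

/-- In every infinite-dimensional Hilbert space there is a bounded closed convex set that is
sharp in every direction but not relatively polyhedral. -/
theorem exists_sharp_not_polyhedral [CompleteSpace H] (hinf : ¬ FiniteDimensional ℝ H) :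
    ∃ A : Set H, A.Nonempty ∧ IsClosed A ∧ Convex ℝ A ∧ Bornology.IsBounded A ∧
      SharpInEveryDirection A ∧ ¬ IsRelativelyPolyhedral A := by
  obtain ⟨w, b, -⟩ := exists_hilbertBasis ℝ H
  exact ⟨ballOne b, ⟨0, zero_mem_ballOne b⟩, isClosed_ballOne b, convex_ballOne b,
    isBounded_ballOne b, sharp_ballOne b, not_isRelativelyPolyhedral_ballOne b hinf⟩

end Pool.Agent.Lib.MP_c48ca6_an
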