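import Pool.Agent.Lib.MP_c48ca6_an.Basic

/-!
# Classification of uniformly sharp sets
-/

namespace Pool.Agent.Lib.MP_c48ca6_an

variable {H : Type} [NormedAddCommGroup H] [InnerProductSpace ℝ H] {A : Set H}

theorem UniformlySharp.sharp (h : UniformlySharp A) : SharpInEveryDirection A := by
  obtain ⟨α, hα, h⟩ := h
  exact fun u hu => ⟨α, hα, h u hu⟩

/-- In dimension at least two, a uniformly sharp set has, at each of its points, a normal cone
that contains either no unit vector or all of them. -/
theorem UniformlySharp.dichotomy (h : UniformlySharp A) (hrank : 1 < Module.rank ℝ H)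
    {x : H} (hx : x ∈ A) :
    (∀ u : H, ‖u‖ = 1 → u ∉ normalCone A x) ∨ (∀ u : H, ‖u‖ = 1 → u ∈ normalCone A x) := by
  obtain ⟨α, hα, hs⟩ := h
  by_contra hcon
  push Not at hcon
  obtain ⟨⟨u, hu1, hu⟩, ⟨v, hv1, hv⟩⟩ := hcon
  have hconn := (isConnected_sphere hrank (0 : H) zero_le_one).isPreconnected
  have hne0 : (normalCone A x).Nonempty := ⟨0, zero_mem_normalCone x⟩
  obtain ⟨w, hwS, hw1, hw2⟩ := hconn {w | Metric.infDist w (normalCone A x) < α}
    (normalCone A x)ᶜ
    (isOpen_lt (Metric.continuous_infDist_pt _) continuous_const)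
    (isClosed_normalCone x).isOpen_compl
    (fun w _ => by
      by_cases hw : w ∈ normalCone A x
      · left
        show Metric.infDist w (normalCone A x) < α
        rw [Metric.infDist_zero_of_mem hw]
        exact hα
      · right; exact hw)
    ⟨u, mem_sphere_zero_iff_norm.mpr hu1, by
      show Metric.infDist u (normalCone A x) < α
      rw [Metric.infDist_zero_of_mem hu]
      exact hα⟩
    ⟨v, mem_sphere_zero_iff_norm.mpr hv1, hv⟩
  have h1 := hs w (mem_sphere_zero_iff_norm.mp hwS) x hx hw2
  have h2 : Metric.infDist w (normalCone A x) < α := hw1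
  linarith

theorem eq_singleton_of_forall {x : H} (hx : x ∈ A)
    (h : ∀ u : H, ‖u‖ = 1 → u ∈ normalCone A x) : A = {x} := by
  refine Set.eq_singleton_iff_unique_mem.mpr ⟨hx, fun a ha => ?_⟩
  by_contra hne
  have hpos : 0 < ‖a - x‖ := norm_pos_iff.mpr (sub_ne_zero.mpr hne)
  have hu : ‖‖a - x‖⁻¹ • (a - x)‖ = 1 := by
    rw [norm_smul, norm_inv, norm_norm, inv_mul_cancel₀ hpos.ne']
  have := h _ hu a ha
  rw [inner_smul_right, real_inner_self_eq_norm_sq] at this
  have h2 : 0 < ‖a - x‖⁻¹ * ‖a - x‖ ^ 2 := by positivity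
  linarith

theorem uniformlySharp_univ : UniformlySharp (Set.univ : Set H) := by
  refine ⟨1, one_pos, fun u hu x _ _ => ?_⟩
  have hN : normalCone (Set.univ : Set H) x = {0} := by
    ext v
    rw [Set.mem_singleton_iff]
    constructor
    · intro hv
      have := hv (x + v) (Set.mem_univ _)
      rw [add_sub_cancel_left, real_inner_self_eq_norm_sq] at this
      have h2 : ‖v‖ = 0 := by nlinarith [norm_nonneg v]
      exact norm_eq_zero.mp h2
    · rintro rfl
      exact zero_mem_normalCone x
  rw [hN, Metric.infDist_singleton, dist_zero_right, hu]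

theorem uniformlySharp_singleton (x : H) : UniformlySharp ({x} : Set H) := by
  refine ⟨1, one_pos, fun u _ y hy hu => absurd ?_ hu⟩
  intro a ha
  rw [Set.mem_singleton_iff] at hy ha
  subst hy
  subst ha
  simp

theorem uniformlySharp_of_rank_le_one (hrank : Module.rank ℝ H ≤ 1) : UniformlySharp A := by
  refine ⟨1, one_pos, fun u hu x _ hux => ?_⟩
  have hne0 : (normalCone A x).Nonempty := ⟨0, zero_mem_normalCone x⟩
  refine (Metric.le_infDist hne0).mpr fun v hv => ?_
  obtain ⟨w, hw⟩ := rank_le_one_iff.mp hrank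
  -- all vectors are multiples of `u`
  have hu0 : u ≠ 0 := by
    intro h; rw [h, norm_zero] at hu; exact zero_ne_one hu
  obtain ⟨r, hr⟩ := hw u
  obtain ⟨s, hs⟩ := hw v
  have hr0 : r ≠ 0 := by
    rintro rfl; rw [zero_smul] at hr; exact hu0 hr.symm
  have hv' : v = (s / r) • u := by
    rw [← hr, smul_smul, div_mul_cancel₀ _ hr0, hs]
  set c : ℝ := s / r with hc
  rcases le_or_gt c 0 with hc0 | hc0
  · rw [hv', dist_eq_norm]
    have : u - c • u = (1 - c) • u := by rw [sub_smul, one_smul]
    rw [this, norm_smul, hu, mul_one, Real.norm_eq_abs, abs_of_nonneg (by linarith)]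
    linarith
  · exfalso
    apply hux
    have : u = c⁻¹ • v := by rw [hv', smul_smul, inv_mul_cancel₀ hc0.ne', one_smul]
    rw [this]
    exact smul_mem_normalCone hv (by positivity)

/-- Classification of uniformly sharp sets. -/
theorem uniformlySharp_iff [CompleteSpace H] (hne : A.Nonempty) (hcl : IsClosed A)
    (hcv : Convex ℝ A) :
    UniformlySharp A ↔ (Module.rank ℝ H ≤ 1 ∨ A = Set.univ ∨ ∃ x, A = {x}) := by
  constructor
  · intro h
    by_cases hrank : Module.rank ℝ H ≤ 1
    · exact Or.inl hrank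
    right
    rw [not_le] at hrank
    by_cases hA : A = Set.univ
    · exact Or.inl hA
    right
    obtain ⟨y, hy⟩ := (Set.ne_univ_iff_exists_notMem A).mp hA
    obtain ⟨x, hx, v, hv1, hv, -⟩ := exists_unit_normal hne hcl hcv hy
    rcases h.dichotomy hrank hx with h1 | h1
    · exact absurd hv (h1 v hv1)
    · exact ⟨x, eq_singleton_of_forall hx h1⟩
  · rintro (h | rfl | ⟨x, rfl⟩)
    · exact uniformlySharp_of_rank_le_one h
    · exact uniformlySharp_univ
    · exact uniformlySharp_singleton x

/-- The uniformly sharp sets that are not polyhedral are exactly the singletons in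
infinite-dimensional spaces. -/
theorem uniformlySharp_and_not_polyhedral_iff [CompleteSpace H] (hne : A.Nonempty)
    (hcl : IsClosed A) (hcv : Convex ℝ A) :
    (UniformlySharp A ∧ ¬ IsPolyhedral A) ↔ (¬ FiniteDimensional ℝ H ∧ ∃ x, A = {x}) := by
  constructor
  · rintro ⟨h, hp⟩
    have hinf : ¬ FiniteDimensional ℝ H := fun hfin =>
      hp (isPolyhedral_of_sharp hne hcl hcv h.sharp)
    refine ⟨hinf, ?_⟩
    rcases (uniformlySharp_iff hne hcl hcv).mp h with h1 | h1 | h1
    · exfalso
      apply hinf
      have : Module.rank ℝ H < Cardinal.aleph0 := lt_of_le_of_lt h1 Cardinal.one_lt_aleph0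
      exact Module.rank_lt_aleph0_iff.mp this
    · exfalso
      rw [h1] at hp
      exact hp isPolyhedral_univ
    · exact h1
  · rintro ⟨hinf, x, rfl⟩
    refine ⟨uniformlySharp_singleton x, ?_⟩
    rintro ⟨m, a, b, -, hab⟩
    have hb : Bornology.IsBounded ({x} : Set H) := Bornology.isBounded_singleton
    rw [hab] at hb
    refine not_isBounded_of_constraints hinf a b ?_ hb
    rw [← hab]
    exact Set.singleton_nonempty x

end Pool.Agent.Lib.MP_c48ca6_an
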